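import Pool.Agent.Lib.H96R.Main

/-!
MP_ef0847_an. Area preserving diffeomorphisms of the two-dimensional torus which are topologically
conjugate to a translation with an exponentially Liouville rotation vector are `C^∞`-rigid, and the
space of smooth coboundaries is not closed. No regularity of the conjugacy is assumed.
-/

set_option autoImplicit false

open scoped ContDiff
open MeasureTheory

namespace Pool.Agent.Results.MP_ef0847_an.ConservativeLiouville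

/-- `F` and `G` are smooth, inverse to each other, and `F` commutes with integer translations:
`F` is the lift of a `C^∞` diffeomorphism of the torus which acts trivially on the lattice. -/
def IsLift {d : ℕ} (F G : (Fin d → ℝ) → (Fin d → ℝ)) : Prop :=
  ContDiff ℝ ∞ F ∧ ContDiff ℝ ∞ G ∧ (∀ x, G (F x) = x) ∧ (∀ x, F (G x) = x) ∧
    ∀ (x : Fin d → ℝ) (k : Fin d → ℤ), F (x + fun i => (k i : ℝ)) = F x + fun i => (k i : ℝ)

/-- The coboundaries `ψ ∘ F - ψ`, `ψ` smooth and periodic, form a closed subspace of `C^∞(𝕋^d)`: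
limits (uniform limits of all derivatives) of coboundaries are coboundaries. -/
def Stable {d : ℕ} (F : (Fin d → ℝ) → (Fin d → ℝ)) : Prop :=
  ∀ (Ψ : ℕ → (Fin d → ℝ) → ℝ) (Φ : (Fin d → ℝ) → ℝ),
    (∀ n, ContDiff ℝ ∞ (Ψ n)) →
    (∀ n (x : Fin d → ℝ) (k : Fin d → ℤ), Ψ n (x + fun i => (k i : ℝ)) = Ψ n x) →
    ContDiff ℝ ∞ Φ →
    (∀ (x : Fin d → ℝ) (k : Fin d → ℤ), Φ (x + fun i => (k i : ℝ)) = Φ x) →
    (∀ j : ℕ, ∀ ε : ℝ, 0 < ε → ∃ N : ℕ, ∀ n, N ≤ n → ∀ x : Fin d → ℝ,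
      ‖iteratedFDeriv ℝ j (fun y => Ψ n (F y) - Ψ n y - Φ y) x‖ < ε) →
    ∃ Ψ₀ : (Fin d → ℝ) → ℝ, ContDiff ℝ ∞ Ψ₀ ∧
      (∀ (x : Fin d → ℝ) (k : Fin d → ℤ), Ψ₀ (x + fun i => (k i : ℝ)) = Ψ₀ x) ∧
      ∀ x, Φ x = Ψ₀ (F x) - Ψ₀ x

/-- `f` is `C^∞`-rigid: arbitrarily large iterates of `f` are arbitrarily close to the identity of
the torus in every `C^r` topology. -/
def SmoothlyRigid {d : ℕ} (F : (Fin d → ℝ) → (Fin d → ℝ)) : Prop :=
  ∀ (r : ℕ) (ε : ℝ), 0 < ε → ∀ N : ℕ, ∃ q : ℕ, N ≤ q ∧ ∃ p : Fin d → ℤ, ∀ j, j ≤ r → ∀ x,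
    ‖iteratedFDeriv ℝ j (fun y => F^[q] y - y - fun i => (p i : ℝ)) x‖ ≤ ε

/-- `μ` is a measure on the plane which is invariant under `F` and under the integer translations,
finite on bounded sets, and the measure of the ball of radius `r ≤ 1` with any centre is at least
`c r ^ K` for some `c > 0` and `K`. (Lebesgue measure, if `F` preserves the area.) -/
def ThickInvariant (F : (Fin 2 → ℝ) → (Fin 2 → ℝ)) (μ : Measure (Fin 2 → ℝ)) : Prop :=
  MeasurePreserving F μ μ ∧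
    (∀ k : Fin 2 → ℤ, MeasurePreserving (fun x => x + fun i => (k i : ℝ)) μ μ) ∧
    (∀ R : ℝ, μ (Metric.ball 0 R) < ⊤) ∧
    ∃ c : ℝ, 0 < c ∧ ∃ K : ℕ, ∀ (x : Fin 2 → ℝ) (r : ℝ), 0 < r → r ≤ 1 →
      ENNReal.ofReal (c * r ^ K) ≤ μ (Metric.ball x r)

/-- `α` is approximable with some positive exponential rate. -/
def ExponentiallyLiouville {d : ℕ} (α : Fin d → ℝ) : Prop :=
  ∃ c : ℝ, 0 < c ∧ ∀ Q : ℕ, ∃ q : ℕ, Q ≤ q ∧ ∃ p : Fin d → ℤ, ∀ i,
    |(q : ℝ) * α i - p i| ≤ Real.exp (-(c * q))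

/-- `α` is Liouville relative to the growth of the derivatives of the iterates of `F`: for every `S`
there are `q ≥ 2`, a bound `Γ ≥ 1` of the first derivatives of the iterates up to the time `q`, and
an integer vector `p` with `|q α_i - p_i| ≤ (q Γ) ^ (-S)`. -/
def RelativelyLiouville {d : ℕ} (F : (Fin d → ℝ) → (Fin d → ℝ)) (α : Fin d → ℝ) : Prop :=
  ∀ S : ℕ, ∃ q : ℕ, 2 ≤ q ∧ ∃ Γ : ℝ, (1 ≤ Γ ∧ ∀ j, j ≤ q → ∀ x, ‖fderiv ℝ (F^[j]) x‖ ≤ Γ) ∧
    ∃ p : Fin d → ℤ, ∀ i, |(q : ℝ) * α i - p i| * ((q : ℝ) * Γ) ^ S ≤ 1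

/-- Lebesgue measure satisfies the hypothesis if `F` is area preserving. -/
theorem thick_of_area {F : (Fin 2 → ℝ) → (Fin 2 → ℝ)}
    (hF : MeasurePreserving F volume volume) : ThickInvariant F volume := by
  obtain ⟨h1, h2, h3, h4⟩ := Pool.Agent.Lib.H96R.inv_volume hF
  exact ⟨h1, h2, h3, h4⟩

/-- Let `α ∈ ℝ²` be irrational, let the diffeomorphism of the two-dimensional torus with lift `F` be
conjugate to the translation by `α` through some homeomorphism `h` and preserve a measure `μ` as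
above (e.g. the area). If `α` is exponentially Liouville, or Liouville relative to the growth of the
derivatives of the iterates of `F`, then the space of smooth coboundaries is not closed, and `F` is
`C^∞`-rigid. -/
theorem result :
    ∀ α : Fin 2 → ℝ,
      (∀ k : Fin 2 → ℤ, k ≠ 0 → ∀ m : ℤ, ∑ i, (k i : ℝ) * α i ≠ (m : ℝ)) →
      ∀ F G : (Fin 2 → ℝ) → (Fin 2 → ℝ), IsLift F G →
      ∀ h : (Fin 2 → AddCircle (1 : ℝ)) ≃ₜ (Fin 2 → AddCircle (1 : ℝ)),
        (∀ x : Fin 2 → ℝ,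
          h (fun i => ((F x i : ℝ) : AddCircle (1 : ℝ))) =
            h (fun i => ((x i : ℝ) : AddCircle (1 : ℝ))) +
              (fun i => ((α i : ℝ) : AddCircle (1 : ℝ)))) →
      ∀ μ : Measure (Fin 2 → ℝ), ThickInvariant F μ →
        (ExponentiallyLiouville α ∨ RelativelyLiouville F α) →
        ¬ Stable F ∧ SmoothlyRigid F := by
  intro α hα F G hFG h hconj μ hμ hL
  obtain ⟨hF, hG, hl, hr, hc⟩ := hFG
  obtain ⟨h1, h2, h3, h4⟩ := hμ
  exact Pool.Agent.Lib.H96R.main α hα F G ⟨hF, hG, hl, hr, hc⟩ h hconj μ ⟨h1, h2, h3, h4⟩ hL.symm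

end Pool.Agent.Results.MP_ef0847_an.ConservativeLiouville
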