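import Pool.Agent.Lib.H96R.MainB

/-!
MP_ef0847_an. Diffeomorphisms of the `d`-dimensional torus which are conjugate to a translation by a
homeomorphism `h` such that `h` and `h⁻¹` are Hoelder continuous with arbitrary exponents, where the
rotation vector satisfies `|q α_i - p_i| ≤ exp (-q ^ κ)` infinitely often for some `κ > 0`, are
`C^∞`-rigid, and the space of smooth coboundaries is not closed.
-/

set_option autoImplicit false

open scoped ContDiff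

namespace Pool.Agent.Results.MP_ef0847_an.HoelderLiouville

/-- `F` and `G` are smooth, inverse to each other, and `F` commutes with integer translations:
`F` is the lift of a `C^∞` diffeomorphism of the torus which acts trivially on the lattice. -/
def IsLift {d : ℕ} (F G : (Fin d → ℝ) → (Fin d → ℝ)) : Prop :=
  ContDiff ℝ ∞ F ∧ ContDiff ℝ ∞ G ∧ (∀ x, G (F x) = x) ∧ (∀ x, F (G x) = x) ∧
    ∀ (x : Fin d → ℝ) (k : Fin d → ℤ), F (x + fun i => (k i : ℝ)) = F x + fun i => (k i : ℝ)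

/-- The coboundaries `ψ ∘ F - ψ`, `ψ` smooth and periodic, form a closed subspace of `C^∞(𝕋^d)`:
limits (uniform limits of all derivatives) of coboundaries are coboundaries. -/
def Stable {d : ℕ} (F : (Fin d → ℝ) → (Fin d → ℝ)) : Prop :=
  ∀ (Ψ : ℕ → (Fin d → ℝ) → ℝ) (Φ : (Fin d → ℝ) → ℝ),
    (∀ n, ContDiff ℝ ∞ (Ψ n)) →
    (∀ n (x : Fin d → ℝ) (k : Fin d → ℤ), Ψ n (x + fun i => (k i : ℝ)) = Ψ n x) →
    ContDiff ℝ ∞ Φ →
    (∀ (x : Fin d → ℝ) (k : Fin d → ℤ), Φ (x + fun i => (k i : ℝ)) = Φ x) →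
    (∀ j : ℕ, ∀ ε : ℝ, 0 < ε → ∃ N : ℕ, ∀ n, N ≤ n → ∀ x : Fin d → ℝ,
      ‖iteratedFDeriv ℝ j (fun y => Ψ n (F y) - Ψ n y - Φ y) x‖ < ε) →
    ∃ Ψ₀ : (Fin d → ℝ) → ℝ, ContDiff ℝ ∞ Ψ₀ ∧
      (∀ (x : Fin d → ℝ) (k : Fin d → ℤ), Ψ₀ (x + fun i => (k i : ℝ)) = Ψ₀ x) ∧
      ∀ x, Φ x = Ψ₀ (F x) - Ψ₀ x

/-- `f` is `C^∞`-rigid: arbitrarily large iterates of `f` are arbitrarily close to the identity of
the torus in every `C^r` topology. -/
def SmoothlyRigid {d : ℕ} (F : (Fin d → ℝ) → (Fin d → ℝ)) : Prop :=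
  ∀ (r : ℕ) (ε : ℝ), 0 < ε → ∀ N : ℕ, ∃ q : ℕ, N ≤ q ∧ ∃ p : Fin d → ℤ, ∀ j, j ≤ r → ∀ x,
    ‖iteratedFDeriv ℝ j (fun y => F^[q] y - y - fun i => (p i : ℝ)) x‖ ≤ ε

/-- `|q α_i - p_i| ≤ exp (-q ^ κ)` infinitely often, for some `κ > 0`. -/
def PowerExponentiallyLiouville {d : ℕ} (α : Fin d → ℝ) : Prop :=
  ∃ κ : ℝ, 0 < κ ∧ ∀ Q : ℕ, ∃ q : ℕ, Q ≤ q ∧ ∃ p : Fin d → ℤ, ∀ i,
    |(q : ℝ) * α i - p i| ≤ Real.exp (-((q : ℝ) ^ κ))

/-- `|q α_i - p_i| ≤ exp (-c q)` infinitely often, for some `c > 0`. -/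
def ExponentiallyLiouville {d : ℕ} (α : Fin d → ℝ) : Prop :=
  ∃ c : ℝ, 0 < c ∧ ∀ Q : ℕ, ∃ q : ℕ, Q ≤ q ∧ ∃ p : Fin d → ℤ, ∀ i,
    |(q : ℝ) * α i - p i| ≤ Real.exp (-(c * q))

/-- Let `α ∈ ℝ^d` be irrational and let the torus diffeomorphism with lift `F` be conjugate to the
translation by `α` through a homeomorphism `h` such that `h⁻¹` is Hoelder continuous (with any
exponent). Suppose that either `h` is Hoelder continuous too (with any exponent) and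
`|q α_i - p_i| ≤ exp (-q ^ κ)` infinitely often for some `κ > 0`, or
`|q α_i - p_i| ≤ exp (-c q)` infinitely often for some `c > 0`. Then the space of smooth
coboundaries is not closed, and `F` is `C^∞`-rigid. -/
theorem result :
    ∀ d : ℕ, 1 ≤ d → ∀ α : Fin d → ℝ,
      (∀ k : Fin d → ℤ, k ≠ 0 → ∀ m : ℤ, ∑ i, (k i : ℝ) * α i ≠ (m : ℝ)) →
      ∀ F G : (Fin d → ℝ) → (Fin d → ℝ), IsLift F G →
      ∀ h : (Fin d → AddCircle (1 : ℝ)) ≃ₜ (Fin d → AddCircle (1 : ℝ)),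
        (∀ x : Fin d → ℝ,
          h (fun i => ((F x i : ℝ) : AddCircle (1 : ℝ))) =
            h (fun i => ((x i : ℝ) : AddCircle (1 : ℝ))) +
              (fun i => ((α i : ℝ) : AddCircle (1 : ℝ)))) →
      ∀ K β₁ β₂ : ℝ, 0 ≤ K → 0 < β₁ → 0 < β₂ →
        (∀ a b, dist (h.symm a) (h.symm b) ≤ K * dist a b ^ β₁) →
        (((∀ a b, dist (h a) (h b) ≤ K * dist a b ^ β₂) ∧ PowerExponentiallyLiouville α) ∨
          ExponentiallyLiouville α) →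
        ¬ Stable F ∧ SmoothlyRigid F := by
  intro d hd α hα F G hFG h hconj K β₁ β₂ hK hβ₁ hβ₂ hs hL
  obtain ⟨hF, hG, hl, hr, hc⟩ := hFG
  exact Pool.Agent.Lib.H96R.mainB hd α hα F G ⟨hF, hG, hl, hr, hc⟩ h hconj K β₁ β₂ hK hβ₁ hβ₂ hs hL

end Pool.Agent.Results.MP_ef0847_an.HoelderLiouville
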