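import Pool.Agent.Lib.H96R.MainC

/-!
MP_ef0847_an. Instability and rigidity for all simultaneously Liouville rotation vectors when the
conjugacy is bi-Hoelder with exponents of product larger than `1/2` (e.g. bi-Lipschitz).
-/

set_option autoImplicit false

open scoped ContDiff

namespace Pool.Agent.Results.MP_ef0847_an.LiouvilleUnstable

/-- `F` and `G` are smooth, inverse to each other, and `F` commutes with integer translations: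
`F` is the lift of a `C^∞` diffeomorphism of the torus which acts trivially on the lattice. -/
def IsLift {d : ℕ} (F G : (Fin d → ℝ) → (Fin d → ℝ)) : Prop :=
  ContDiff ℝ ∞ F ∧ ContDiff ℝ ∞ G ∧ (∀ x, G (F x) = x) ∧ (∀ x, F (G x) = x) ∧
    ∀ (x : Fin d → ℝ) (k : Fin d → ℤ), F (x + fun i => (k i : ℝ)) = F x + fun i => (k i : ℝ)

/-- The coboundaries `ψ ∘ F - ψ`, `ψ` smooth and periodic, form a closed subspace of `C^∞(𝕋^d)`:
limits (uniform limits of all derivatives) of coboundaries are coboundaries. -/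
def Stable {d : ℕ} (F : (Fin d → ℝ) → (Fin d → ℝ)) : Prop :=
  ∀ (Ψ : ℕ → (Fin d → ℝ) → ℝ) (Φ : (Fin d → ℝ) → ℝ),
    (∀ n, ContDiff ℝ ∞ (Ψ n)) →
    (∀ n (x : Fin d → ℝ) (k : Fin d → ℤ), Ψ n (x + fun i => (k i : ℝ)) = Ψ n x) →
    ContDiff ℝ ∞ Φ →
    (∀ (x : Fin d → ℝ) (k : Fin d → ℤ), Φ (x + fun i => (k i : ℝ)) = Φ x) →
    (∀ j : ℕ, ∀ ε : ℝ, 0 < ε → ∃ N : ℕ, ∀ n, N ≤ n → ∀ x : Fin d → ℝ,
      ‖iteratedFDeriv ℝ j (fun y => Ψ n (F y) - Ψ n y - Φ y) x‖ < ε) →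
    ∃ Ψ₀ : (Fin d → ℝ) → ℝ, ContDiff ℝ ∞ Ψ₀ ∧
      (∀ (x : Fin d → ℝ) (k : Fin d → ℤ), Ψ₀ (x + fun i => (k i : ℝ)) = Ψ₀ x) ∧
      ∀ x, Φ x = Ψ₀ (F x) - Ψ₀ x

/-- `f` is `C^∞`-rigid: arbitrarily large iterates of `f` are arbitrarily close to the identity of
the torus in every `C^r` topology. -/
def SmoothlyRigid {d : ℕ} (F : (Fin d → ℝ) → (Fin d → ℝ)) : Prop :=
  ∀ (r : ℕ) (ε : ℝ), 0 < ε → ∀ N : ℕ, ∃ q : ℕ, N ≤ q ∧ ∃ p : Fin d → ℤ, ∀ j, j ≤ r → ∀ x,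
    ‖iteratedFDeriv ℝ j (fun y => F^[q] y - y - fun i => (p i : ℝ)) x‖ ≤ ε

/-- `α` is simultaneously Liouville: `|q α_i - p_i| ≤ q ^ (-S)` for all `i`, with some `q ≥ 2`
depending on `S`. -/
def SimultaneouslyLiouville {d : ℕ} (α : Fin d → ℝ) : Prop :=
  ∀ S : ℕ, ∃ q : ℕ, 2 ≤ q ∧ ∃ p : Fin d → ℤ, ∀ i, |(q : ℝ) * α i - p i| ≤ ((q : ℝ) ^ S)⁻¹

/-- Let `α ∈ ℝ^d` be irrational and simultaneously Liouville, and let the torus diffeomorphism with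
lift `F` be conjugate to the translation by `α` through a homeomorphism `h` such that `h⁻¹` is
`β₁`-Hoelder, `h` is `β₂`-Hoelder and `β₁ β₂ > 1/2`. Then the space of smooth coboundaries is not
closed, and `F` is `C^∞`-rigid. -/
theorem result :
    ∀ d : ℕ, 1 ≤ d → ∀ α : Fin d → ℝ,
      (∀ k : Fin d → ℤ, k ≠ 0 → ∀ m : ℤ, ∑ i, (k i : ℝ) * α i ≠ (m : ℝ)) →
      ∀ F G : (Fin d → ℝ) → (Fin d → ℝ), IsLift F G →
      ∀ h : (Fin d → AddCircle (1 : ℝ)) ≃ₜ (Fin d → AddCircle (1 : ℝ)),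
        (∀ x : Fin d → ℝ,
          h (fun i => ((F x i : ℝ) : AddCircle (1 : ℝ))) =
            h (fun i => ((x i : ℝ) : AddCircle (1 : ℝ))) +
              (fun i => ((α i : ℝ) : AddCircle (1 : ℝ)))) →
      ∀ K β₁ β₂ : ℝ, 0 ≤ K → 0 < β₁ → β₁ ≤ 1 → 0 < β₂ → β₂ ≤ 1 → 1 / 2 < β₁ * β₂ →
        (∀ a b, dist (h.symm a) (h.symm b) ≤ K * dist a b ^ β₁) →
        (∀ a b, dist (h a) (h b) ≤ K * dist a b ^ β₂) →
        SimultaneouslyLiouville α →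
        ¬ Stable F ∧ SmoothlyRigid F := by
  intro d hd α hα F G hFG h hconj K β₁ β₂ hK hβ₁ hβ₁' hβ₂ hβ₂' hb hs hh hL
  obtain ⟨hF, hG, hl, hr, hc⟩ := hFG
  exact Pool.Agent.Lib.H96R.mainC hd α hα F G ⟨hF, hG, hl, hr, hc⟩ h hconj K β₁ β₂ hK hβ₁ hβ₂
    hβ₁' hβ₂' hs hh hb hL

end Pool.Agent.Results.MP_ef0847_an.LiouvilleUnstable
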