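import Pool.Agent.Lib.H47C.Main

/-!
MP_ef0847_an. If the coboundaries are closed and the derivatives of the iterates grow slowly, then
the rotation vector is Diophantine and the topological conjugacy to the translation is smooth.
-/

set_option autoImplicit false

open scoped ContDiff

namespace Pool.Agent.Results.MP_ef0847_an.SmoothConjugacy

/-- `F` and `G` are smooth, inverse to each other, and `F` commutes with integer translations: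
`F` is the lift of a `C^∞` diffeomorphism of the torus which acts trivially on the lattice. -/
def IsLift {d : ℕ} (F G : (Fin d → ℝ) → (Fin d → ℝ)) : Prop :=
  ContDiff ℝ ∞ F ∧ ContDiff ℝ ∞ G ∧ (∀ x, G (F x) = x) ∧ (∀ x, F (G x) = x) ∧
    ∀ (x : Fin d → ℝ) (k : Fin d → ℤ), F (x + fun i => (k i : ℝ)) = F x + fun i => (k i : ℝ)

/-- The coboundaries `ψ ∘ F - ψ`, `ψ` smooth and periodic, form a closed subspace of `C^∞(𝕋^d)`:
limits (uniform limits of all derivatives) of coboundaries are coboundaries. -/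
def Stable {d : ℕ} (F : (Fin d → ℝ) → (Fin d → ℝ)) : Prop :=
  ∀ (Ψ : ℕ → (Fin d → ℝ) → ℝ) (Φ : (Fin d → ℝ) → ℝ),
    (∀ n, ContDiff ℝ ∞ (Ψ n)) →
    (∀ n (x : Fin d → ℝ) (k : Fin d → ℤ), Ψ n (x + fun i => (k i : ℝ)) = Ψ n x) →
    ContDiff ℝ ∞ Φ →
    (∀ (x : Fin d → ℝ) (k : Fin d → ℤ), Φ (x + fun i => (k i : ℝ)) = Φ x) →
    (∀ j : ℕ, ∀ ε : ℝ, 0 < ε → ∃ N : ℕ, ∀ n, N ≤ n → ∀ x : Fin d → ℝ,
      ‖iteratedFDeriv ℝ j (fun y => Ψ n (F y) - Ψ n y - Φ y) x‖ < ε) →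
    ∃ Ψ₀ : (Fin d → ℝ) → ℝ, ContDiff ℝ ∞ Ψ₀ ∧
      (∀ (x : Fin d → ℝ) (k : Fin d → ℤ), Ψ₀ (x + fun i => (k i : ℝ)) = Ψ₀ x) ∧
      ∀ x, Φ x = Ψ₀ (F x) - Ψ₀ x

/-- Slow growth of the derivatives of the iterates: for every `r ≥ 1` there is `s ≥ r` with
`liminf_n (sup ‖D^s F^n‖)^r / n^s = 0`. -/
def SlowGrowth {d : ℕ} (F : (Fin d → ℝ) → (Fin d → ℝ)) : Prop :=
  ∀ r : ℕ, 1 ≤ r → ∃ s : ℕ, r ≤ s ∧ ∀ ε : ℝ, 0 < ε → ∀ N : ℕ, ∃ n : ℕ, N ≤ n ∧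
    ∀ x, ‖iteratedFDeriv ℝ s (F^[n]) x‖ ^ r ≤ ε * (n : ℝ) ^ s

/-- The Diophantine condition. -/
def IsDiophantine {d : ℕ} (α : Fin d → ℝ) : Prop :=
  ∃ C : ℝ, 0 < C ∧ ∃ τ : ℝ, 0 < τ ∧ ∀ k : Fin d → ℤ, k ≠ 0 → ∀ m : ℤ,
    C / (∑ i, |(k i : ℝ)|) ^ τ ≤ |∑ i, (k i : ℝ) * α i - (m : ℝ)|

/-- The homeomorphism `h` of the torus is a `C^∞` diffeomorphism: it lifts to a map `H` of `ℝ^d`
which is smooth and has a smooth inverse `K`. -/
def IsSmoothDiffeo {d : ℕ}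
    (h : (Fin d → AddCircle (1 : ℝ)) ≃ₜ (Fin d → AddCircle (1 : ℝ))) : Prop :=
  ∃ H K : (Fin d → ℝ) → (Fin d → ℝ), ContDiff ℝ ∞ H ∧ ContDiff ℝ ∞ K ∧
    (∀ x, K (H x) = x) ∧ (∀ x, H (K x) = x) ∧
    ∀ x : Fin d → ℝ, h (fun i => ((x i : ℝ) : AddCircle (1 : ℝ))) =
      fun i => ((H x i : ℝ) : AddCircle (1 : ℝ))

/-- Let `α ∈ ℝ^d` be irrational and let the torus diffeomorphism with lift `F` be conjugate to the
translation by `α` through a homeomorphism `h`. If the derivatives of the iterates of `F` grow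
slowly and the space of smooth coboundaries is closed, then `α` is Diophantine and `h` is a `C^∞`
diffeomorphism. -/
theorem result :
    ∀ d : ℕ, 1 ≤ d → ∀ α : Fin d → ℝ,
      (∀ k : Fin d → ℤ, k ≠ 0 → ∀ m : ℤ, ∑ i, (k i : ℝ) * α i ≠ (m : ℝ)) →
      ∀ F G : (Fin d → ℝ) → (Fin d → ℝ), IsLift F G →
      ∀ h : (Fin d → AddCircle (1 : ℝ)) ≃ₜ (Fin d → AddCircle (1 : ℝ)),
        (∀ x : Fin d → ℝ,
          h (fun i => ((F x i : ℝ) : AddCircle (1 : ℝ))) =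
            h (fun i => ((x i : ℝ) : AddCircle (1 : ℝ))) +
              (fun i => ((α i : ℝ) : AddCircle (1 : ℝ)))) →
        SlowGrowth F → Stable F → IsDiophantine α ∧ IsSmoothDiffeo h := by
  intro d _ α hα F G hFG h hconj hg hst
  obtain ⟨hF, hG, hl, hr, hc⟩ := hFG
  have hS : Pool.Agent.Lib.H14U.Sys F G := ⟨hF, hG, hl, hr, hc⟩
  exact Pool.Agent.Lib.H47C.main α hα F G hS h hconj hg hst

end Pool.Agent.Results.MP_ef0847_an.SmoothConjugacy
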